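import Mathlib
import Pool.Agent.H.MP_029391_gt.Main

set_option autoImplicit false

namespace Pool.Agent.Results.MP_029391_gt.Counter

open Pool.Agent.H.MP_029391_gt

theorem result : ∃ (X : Fin 3 → Type) (_ : ∀ i, MetricSpace (X i)) (_ : ∀ i, CompactSpace (X i))
    (_ : ∀ i, Nonempty (X i)), ¬ ∃ R : Set (∀ i, X i),
      ∀ i j, i ≠ j → Opt ((fun r => (r i, r j)) '' R) :=
  ⟨X, inferInstance, inferInstance, inferInstance, fun ⟨R, h⟩ => main R h⟩

end Pool.Agent.Results.MP_029391_gt.Counter
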